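import Mathlib

/-!
# CV/LINKC, part 1: integral polynomials at a prime, Gauss lemma, finiteness of bad primes
-/

set_option autoImplicit false

namespace Pool.Agent.N488.CV

open NumberField IsDedekindDomain Module Polynomial

variable {K : Type} [Field K] [NumberField K]

/-- polynomials with coefficients integral at `v` -/
def GR (v : HeightOneSpectrum (𝓞 K)) : Subring K[X] where
  carrier := {p | ∀ n, v.valuation K (p.coeff n) ≤ 1}
  zero_mem' := fun n => by simp
  one_mem' := fun n => by
    rw [coeff_one]
    split_ifs <;> simp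
  add_mem' := fun {p q} hp hq n => by
    rw [coeff_add]
    exact (Valuation.map_add _ _ _).trans (max_le (hp n) (hq n))
  neg_mem' := fun {p} hp n => by
    rw [coeff_neg, Valuation.map_neg]
    exact hp n
  mul_mem' := fun {p q} hp hq n => by
    rw [coeff_mul]
    refine Valuation.map_sum_le _ fun x _ => ?_
    rw [map_mul]
    exact mul_le_one' (hp _) (hq _)

theorem mem_GR {v : HeightOneSpectrum (𝓞 K)} {p : K[X]} :
    p ∈ GR v ↔ ∀ n, v.valuation K (p.coeff n) ≤ 1 := Iff.rfl

/-- Gauss lemma -/
theorem gauss {v : HeightOneSpectrum (𝓞 K)} {P b : K[X]} (hP : P ∈ GR v)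
    (hP1 : ∃ n, ¬ v.valuation K (P.coeff n) < 1) (hPb : P * b ∈ GR v) : b ∈ GR v := by
  classical
  by_contra hb
  rw [mem_GR] at hb
  push Not at hb
  obtain ⟨n1, hn1⟩ := hb
  have hb0 : b.coeff n1 ≠ 0 := by
    intro h
    rw [h, map_zero] at hn1
    exact absurd hn1 (by simp)
  have hne : b.support.Nonempty := ⟨n1, mem_support_iff.2 hb0⟩
  obtain ⟨j1, hj1, hj1'⟩ := Finset.exists_max_image b.support
    (fun j => v.valuation K (b.coeff j)) hne
  have hmax : ∃ j, ∀ j', v.valuation K (b.coeff j') ≤ v.valuation K (b.coeff j) := by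
    refine ⟨j1, fun j' => ?_⟩
    by_cases h : j' ∈ b.support
    · exact hj1' j' h
    · rw [notMem_support_iff.1 h, map_zero]
      exact zero_le
  set j0 := Nat.find hmax with hj0
  have hj0s : ∀ j', v.valuation K (b.coeff j') ≤ v.valuation K (b.coeff j0) := Nat.find_spec hmax
  have hj0m : ∀ j < j0, v.valuation K (b.coeff j) < v.valuation K (b.coeff j0) := by
    intro j hj
    have h := Nat.find_min hmax hj
    push Not at h
    obtain ⟨j', hj'⟩ := h
    exact hj'.trans_le (hj0s j')
  set i0 := Nat.find hP1 with hi0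
  have hi0s : v.valuation K (P.coeff i0) = 1 :=
    le_antisymm (hP i0) (not_lt.1 (Nat.find_spec hP1))
  have hi0m : ∀ i < i0, v.valuation K (P.coeff i) < 1 := by
    intro i hi
    have h := Nat.find_min hP1 hi
    exact not_not.1 h
  have hB : 1 < v.valuation K (b.coeff j0) := hn1.trans_le (hj0s n1)
  have hB0 : 0 < v.valuation K (b.coeff j0) := zero_lt_one.trans hB
  have hc : v.valuation K ((P * b).coeff (i0 + j0)) = v.valuation K (b.coeff j0) := by
    have hm : ((i0, j0) : ℕ × ℕ) ∈ Finset.HasAntidiagonal.antidiagonal (i0 + j0) :=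
      Finset.HasAntidiagonal.mem_antidiagonal.2 rfl
    rw [coeff_mul, ← Finset.add_sum_erase _ _ hm]
    have h1 : v.valuation K (P.coeff i0 * b.coeff j0) = v.valuation K (b.coeff j0) := by
      rw [map_mul, hi0s, one_mul]
    rw [Valuation.map_add_eq_of_lt_left]
    · exact h1
    · rw [h1]
      refine Valuation.map_sum_lt _ hB0.ne' fun x hx => ?_
      rw [Finset.mem_erase, Finset.HasAntidiagonal.mem_antidiagonal] at hx
      obtain ⟨hx1, hx2⟩ := hx
      rw [map_mul]
      rcases lt_trichotomy x.1 i0 with h | h | h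
      · calc v.valuation K (P.coeff x.1) * v.valuation K (b.coeff x.2)
            ≤ v.valuation K (P.coeff x.1) * v.valuation K (b.coeff j0) :=
              mul_le_mul_right (hj0s _) _
          _ < 1 * v.valuation K (b.coeff j0) := by
              exact mul_lt_mul_of_pos_right (hi0m _ h) hB0
          _ = _ := one_mul _
      · exfalso
        apply hx1
        have : x.2 = j0 := by omega
        exact Prod.ext h this
      · have h2 : x.2 < j0 := by omega
        calc v.valuation K (P.coeff x.1) * v.valuation K (b.coeff x.2)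
            ≤ 1 * v.valuation K (b.coeff x.2) := mul_le_mul_left (hP _) _
          _ = v.valuation K (b.coeff x.2) := one_mul _
          _ < _ := hj0m _ h2
  have := hPb (i0 + j0)
  rw [hc] at this
  exact absurd hB (not_lt.2 this)

/-! ### finiteness -/

open Filter

theorem ev_int (a : K) : ∀ᶠ v : HeightOneSpectrum (𝓞 K) in cofinite, v.valuation K a ≤ 1 := by
  rw [eventually_cofinite]
  refine (HeightOneSpectrum.Support.finite (𝓞 K) a).subset fun v hv => ?_
  exact not_le.1 hv

theorem ev_poly (p : K[X]) : ∀ᶠ v : HeightOneSpectrum (𝓞 K) in cofinite, p ∈ GR v := by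
  have h : ∀ᶠ v : HeightOneSpectrum (𝓞 K) in cofinite, ∀ n ∈ p.support,
      v.valuation K (p.coeff n) ≤ 1 := (eventually_all_finset _).2 fun n _ => ev_int _
  filter_upwards [h] with v hv n
  by_cases hn : n ∈ p.support
  · exact hv n hn
  · rw [notMem_support_iff.1 hn, map_zero]
    exact zero_le

variable {L : Type} [Field L] [NumberField L] [Algebra K L]

theorem ev_over (y : L) : ∀ᶠ v : HeightOneSpectrum (𝓞 K) in cofinite,
    ∀ w : HeightOneSpectrum (𝓞 L), w.asIdeal.LiesOver v.asIdeal → w.valuation L y ≤ 1 := by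
  rw [eventually_cofinite]
  have hf := HeightOneSpectrum.Support.finite (𝓞 L) y
  refine (Set.Finite.biUnion hf (t := fun w => {v : HeightOneSpectrum (𝓞 K) |
    w.asIdeal.LiesOver v.asIdeal}) fun w _ => ?_).subset ?_
  · refine Set.Subsingleton.finite fun v hv v' hv' => ?_
    ext1
    rw [hv.over, hv'.over]
  · intro v hv
    simp only [Set.mem_ofPred_eq] at hv
    push Not at hv
    obtain ⟨w, hw, hw2⟩ := hv
    exact Set.mem_biUnion (x := w) hw2 hw

/-- valuations in extensions -/
theorem val_le {v : HeightOneSpectrum (𝓞 K)} {w : HeightOneSpectrum (𝓞 L)}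
    (h : w.asIdeal.LiesOver v.asIdeal) {x : K} (hx : v.valuation K x ≤ 1) :
    w.valuation L (algebraMap K L x) ≤ 1 := by
  rw [← HeightOneSpectrum.valuation_liesOver L v w x]
  exact pow_le_one' hx _

end Pool.Agent.N488.CV
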