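import Mathlib

/-!
# CV/LINKC, part 2: the norm form of a linear system has no zeros
-/

set_option autoImplicit false

namespace Pool.Agent.N488.CV

open Module Polynomial TensorProduct

section

variable {K A F : Type} [Field K] [CommRing A] [IsDomain A] [Algebra K A] [Algebra K[X] A]
  [IsScalarTower K K[X] A] [Field F] [Algebra K F] {N : ℕ}

/-- the multiplication matrix over `F[X]` of `∑ c_i f_i` -/
noncomputable def Gm (e : Basis (Fin N) K[X] A) {m : ℕ} (f : Fin m → A) (c : Fin m → F) :
    Matrix (Fin N) (Fin N) F[X] :=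
  ∑ i, (C (c i)) • ((Algebra.leftMulMatrix e (f i)).map (Polynomial.map (algebraMap K F)))

/-- the coordinate `X` -/
noncomputable def xA (K A : Type) [Field K] [CommRing A] [Algebra K[X] A] : A :=
  algebraMap K[X] A X

/-- the map `F[X] → F ⊗ A` -/
noncomputable def rho (K A F : Type) [Field K] [CommRing A] [Algebra K A] [Algebra K[X] A]
    [Field F] [Algebra K F] : F[X] →ₐ[F] F ⊗[K] A :=
  Polynomial.aeval (1 ⊗ₜ[K] xA K A)

omit [IsDomain A] in
theorem rho_map (p : K[X]) : rho K A F (p.map (algebraMap K F)) = 1 ⊗ₜ[K] algebraMap K[X] A p := by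
  have h : ((rho K A F : F[X] →+* F ⊗[K] A).comp (Polynomial.mapRingHom (algebraMap K F))) =
      ((Algebra.TensorProduct.includeRight : A →ₐ[K] F ⊗[K] A) : A →+* F ⊗[K] A).comp
        (algebraMap K[X] A) := by
    refine Polynomial.ringHom_ext ?_ ?_
    · intro a
      simp only [RingHom.comp_apply, coe_mapRingHom, map_C, RingHom.coe_coe, rho, aeval_C,
        Algebra.TensorProduct.includeRight_apply]
      have h1 : algebraMap K[X] A (C a) = algebraMap K A a := by
        rw [IsScalarTower.algebraMap_apply K K[X] A]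
        rfl
      rw [h1, Algebra.TensorProduct.algebraMap_apply, Algebra.algebraMap_self_apply,
        Algebra.algebraMap_eq_smul_one, Algebra.algebraMap_eq_smul_one (A := A),
        TensorProduct.tmul_smul, TensorProduct.smul_tmul']
    · simp only [RingHom.comp_apply, coe_mapRingHom, map_X, RingHom.coe_coe, rho, aeval_X,
        Algebra.TensorProduct.includeRight_apply]
      rfl
  exact congrArg (fun g : K[X] →+* F ⊗[K] A => g p) h

/-- the element with coordinates `z` -/
noncomputable def th (e : Basis (Fin N) K[X] A) (z : Fin N → F[X]) : F ⊗[K] A :=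
  ∑ j, rho K A F (z j) * (1 ⊗ₜ[K] e j)

omit [IsDomain A] in
theorem col (e : Basis (Fin N) K[X] A) {m : ℕ} (f : Fin m → A) (c : Fin m → F) (j : Fin N) :
    (∑ i, c i ⊗ₜ[K] f i) * (1 ⊗ₜ[K] e j) = ∑ l, rho K A F (Gm e f c l j) * (1 ⊗ₜ[K] e l) := by
  have h1 : ∀ i, (c i ⊗ₜ[K] f i) * ((1 : F) ⊗ₜ[K] e j) =
      ∑ l, rho K A F (C (c i) * ((Algebra.leftMulMatrix e (f i) l j).map (algebraMap K F))) *
        (1 ⊗ₜ[K] e l) := by
    intro i
    have h2 : f i * e j = ∑ l, (Algebra.leftMulMatrix e (f i) l j) • e l := by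
      rw [← e.sum_repr (f i * e j)]
      refine Finset.sum_congr rfl fun l _ => ?_
      rw [Algebra.leftMulMatrix_eq_repr_mul]
    rw [Algebra.TensorProduct.tmul_mul_tmul, mul_one, h2, TensorProduct.tmul_sum]
    refine Finset.sum_congr rfl fun l _ => ?_
    rw [map_mul, rho_map, Algebra.smul_def]
    have h3 : rho K A F (C (c i)) = c i ⊗ₜ[K] (1 : A) := by
      rw [rho, aeval_C]
      rw [Algebra.TensorProduct.algebraMap_apply, Algebra.algebraMap_self_apply]
    rw [h3, Algebra.TensorProduct.tmul_mul_tmul, Algebra.TensorProduct.tmul_mul_tmul, mul_one,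
      mul_one, one_mul]
  rw [Finset.sum_mul, Finset.sum_congr rfl fun i _ => h1 i, Finset.sum_comm]
  refine Finset.sum_congr rfl fun l _ => ?_
  rw [← Finset.sum_mul, ← map_sum]
  congr 2
  simp only [Gm, Matrix.sum_apply, Matrix.smul_apply, Matrix.map_apply, smul_eq_mul]

omit [IsDomain A] in
theorem mul_th (e : Basis (Fin N) K[X] A) {m : ℕ} (f : Fin m → A) (c : Fin m → F)
    (z : Fin N → F[X]) :
    (∑ i, c i ⊗ₜ[K] f i) * th e z = th e (Matrix.mulVec (Gm e f c) z) := by
  rw [th, th, Finset.mul_sum]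
  have h1 : ∀ j, (∑ i, c i ⊗ₜ[K] f i) * (rho K A F (z j) * (1 ⊗ₜ[K] e j)) =
      ∑ l, rho K A F (Gm e f c l j * z j) * (1 ⊗ₜ[K] e l) := by
    intro j
    rw [mul_left_comm, col, Finset.mul_sum]
    refine Finset.sum_congr rfl fun l _ => ?_
    rw [map_mul]
    ring
  rw [Finset.sum_congr rfl fun j _ => h1 j, Finset.sum_comm]
  refine Finset.sum_congr rfl fun l _ => ?_
  rw [← Finset.sum_mul, ← map_sum]
  rfl

omit [IsDomain A] in
theorem th_inj (e : Basis (Fin N) K[X] A) (z : Fin N → F[X]) (hz : th e z = 0) : z = 0 := by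
  classical
  let b : Basis (ℕ × Fin N) K A := (Polynomial.basisMonomials K).smulTower e
  let bF : Basis (ℕ × Fin N) F (F ⊗[K] A) := b.baseChange F
  have hb : ∀ n l, bF (n, l) = 1 ⊗ₜ[K] (xA K A ^ n * e l) := by
    intro n l
    have h1 : b (n, l) = xA K A ^ n * e l := by
      show ((Polynomial.basisMonomials K).smulTower e) (n, l) = _
      rw [Basis.smulTower_apply, coe_basisMonomials, Algebra.smul_def, xA, ← map_pow,
        X_pow_eq_monomial]
    rw [← h1]
    exact Basis.baseChange_apply F b (n, l)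
  have h2 : ∀ (p : F[X]) (l' : Fin N) (n : ℕ) (l : Fin N),
      bF.repr (rho K A F p * (1 ⊗ₜ[K] e l')) (n, l) = if l' = l then p.coeff n else 0 := by
    intro p l' n l
    induction p using Polynomial.induction_on' with
    | add p q hp hq =>
      rw [map_add, add_mul, map_add, Finsupp.add_apply, hp, hq, coeff_add]
      split_ifs <;> simp
    | monomial k a =>
      have h3 : rho K A F (monomial k a) * (1 ⊗ₜ[K] e l') = a • bF (k, l') := by
        rw [hb, rho, aeval_monomial, Algebra.TensorProduct.tmul_pow, one_pow, mul_assoc,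
          Algebra.TensorProduct.tmul_mul_tmul, one_mul, Algebra.smul_def]
      rw [h3, map_smul, Basis.repr_self, Finsupp.smul_apply, Finsupp.single_apply,
        Polynomial.coeff_monomial]
      by_cases h4 : l' = l
      · subst h4
        by_cases h5 : k = n
        · subst h5; simp
        · simp [h5]
      · simp [h4]
  funext l
  ext n
  have h3 : bF.repr (th e z) (n, l) = (z l).coeff n := by
    rw [th, map_sum, Finsupp.finsetSum_apply]
    rw [Finset.sum_congr rfl fun j _ => h2 (z j) j n l]
    simp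
  rw [hz, map_zero] at h3
  simpa using h3.symm

omit [IsDomain A] [Algebra K[X] A] [IsScalarTower K K[X] A] in
theorem tmul_inj {m : ℕ} {f : Fin m → A} (hf : LinearIndependent K f) (c : Fin m → F)
    (h : ∑ i, c i ⊗ₜ[K] f i = 0) : c = 0 := by
  classical
  obtain ⟨g, hg⟩ := LinearMap.exists_leftInverse_of_injective (Fintype.linearCombination K f)
    (by
      rw [LinearMap.ker_eq_bot']
      intro t ht
      rw [Fintype.linearCombination_apply] at ht
      exact funext (Fintype.linearIndependent_iff.1 hf t ht))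
  have hg1 : ∀ i j, g (f i) j = if i = j then 1 else 0 := by
    intro i j
    have h1 := LinearMap.congr_fun hg (Pi.single i 1)
    rw [LinearMap.comp_apply, Fintype.linearCombination_apply_single, one_smul,
      LinearMap.id_apply] at h1
    rw [h1, Pi.single_apply]
    simp [eq_comm]
  funext j
  have h2 := congrArg (fun t => TensorProduct.rid K F
    (LinearMap.lTensor F ((LinearMap.proj j).comp g) t)) h
  simp only [map_sum, LinearMap.lTensor_tmul, TensorProduct.rid_tmul, LinearMap.comp_apply,
    LinearMap.proj_apply, hg1, map_zero] at h2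
  simpa using h2

omit [IsDomain A] in
/-- the determinant has no zeros -/
theorem det_ne [IsDomain (F ⊗[K] A)] (e : Basis (Fin N) K[X] A) {m : ℕ} {f : Fin m → A}
    (hf : LinearIndependent K f) (c : Fin m → F) (h : (Gm e f c).det = 0) : c = 0 := by
  obtain ⟨z, hz0, hz⟩ := Matrix.exists_mulVec_eq_zero_iff.2 h
  have h1 := mul_th e f c z
  rw [hz] at h1
  have h2 : th e (0 : Fin N → F[X]) = (0 : F ⊗[K] A) := by
    simp [th]
  rw [h2] at h1
  rcases mul_eq_zero.1 h1 with h3 | h3
  · exact tmul_inj hf c h3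
  · exact absurd (th_inj e z h3) hz0

end

/-! ### the generic norm -/

section

variable {K A : Type} [Field K] [CommRing A] [IsDomain A] [Algebra K A] [Algebra K[X] A]
  [IsScalarTower K K[X] A] {N : ℕ}

/-- the generic multiplication matrix -/
noncomputable def Gg (e : Basis (Fin N) K[X] A) {m : ℕ} (f : Fin m → A) :
    Matrix (Fin N) (Fin N) (MvPolynomial (Fin m) K)[X] :=
  ∑ i, (C (MvPolynomial.X i : MvPolynomial (Fin m) K)) •
    ((Algebra.leftMulMatrix e (f i)).map (Polynomial.map MvPolynomial.C))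

omit [IsDomain A] [Algebra K A] [IsScalarTower K K[X] A] in
theorem Gg_map {F : Type} [Field F] [Algebra K F] (e : Basis (Fin N) K[X] A) {m : ℕ}
    (f : Fin m → A) (c : Fin m → F) :
    ((Gg e f).det).map (MvPolynomial.aeval c : MvPolynomial (Fin m) K →ₐ[K] F).toRingHom =
      (Gm e f c).det := by
  have h1 := RingHom.map_det
    (Polynomial.mapRingHom (MvPolynomial.aeval c : MvPolynomial (Fin m) K →ₐ[K] F).toRingHom)
    (Gg e f)
  rw [coe_mapRingHom] at h1
  rw [h1]
  congr 1
  ext1 a b
  simp only [RingHom.mapMatrix_apply, Matrix.map_apply, Gg, Gm, Matrix.sum_apply,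
    Matrix.smul_apply, smul_eq_mul, coe_mapRingHom, Polynomial.map_sum, Polynomial.map_mul, map_C]
  refine Finset.sum_congr rfl fun i _ => ?_
  congr 1
  · congr 1
    simp
  · rw [Polynomial.map_map]
    congr 1
    ext x
    simp

omit [IsDomain A] in
/-- **Nullstellensatz** for the generic norm -/
theorem null [IsDomain (AlgebraicClosure K ⊗[K] A)] (e : Basis (Fin N) K[X] A) {m : ℕ}
    {f : Fin m → A} (hf : LinearIndependent K f) (i : Fin m) :
    ∃ (E : ℕ) (h : ℕ →₀ MvPolynomial (Fin m) K),
      (MvPolynomial.X i) ^ E = h.sum fun k q => q * (Gg e f).det.coeff k := by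
  have h1 : (MvPolynomial.X i : MvPolynomial (Fin m) K) ∈
      (Ideal.span (Set.range fun k => (Gg e f).det.coeff k)).radical := by
    rw [← MvPolynomial.vanishingIdeal_zeroLocus_eq_radical (K := AlgebraicClosure K),
      MvPolynomial.mem_vanishingIdeal_iff]
    intro c hc
    rw [MvPolynomial.zeroLocus_span] at hc
    have h2 : (Gm e f c).det = 0 := by
      rw [← Gg_map]
      ext k
      rw [coeff_map, coeff_zero]
      exact hc _ ⟨k, rfl⟩
    have h3 := det_ne e hf c h2
    rw [h3]
    simp
  obtain ⟨E, hE⟩ := h1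
  refine ⟨E, ?_⟩
  rw [Ideal.span, Finsupp.mem_span_range_iff_exists_finsupp] at hE
  obtain ⟨h, hh⟩ := hE
  exact ⟨h, hh.symm⟩

end

end Pool.Agent.N488.CV
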