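import Pool.Agent.N753.DR.Stm2
import Pool.Agent.N488.CV.L1
import Pool.Agent.N488.CV.L2

/-!
# CV/LINKC: a common zero modulo a prime
-/

set_option autoImplicit false

namespace Pool.Agent.N488.CV

open NumberField IsDedekindDomain Module Polynomial Filter
open Pool.Agent.N753.DR

section

variable {K A : Type} [Field K] [NumberField K] [CommRing A] [IsDomain A] [Algebra K A]
  [Algebra K[X] A] [IsScalarTower K K[X] A] {N : ℕ}

omit [NumberField K] [IsDomain A] in
theorem Gm_eq (e : Basis (Fin N) K[X] A) {m : ℕ} (f : Fin m → A) (c : Fin m → K) :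
    Gm e f c = Algebra.leftMulMatrix e (mem f c) := by
  rw [Gm, mem, map_sum]
  refine Finset.sum_congr rfl fun i _ => ?_
  have h1 : c i • f i = (C (c i) : K[X]) • f i := by
    rw [← smul_one_smul K[X] (c i) (f i)]
    congr 1
    rw [← C_mul', mul_one]
  rw [h1, map_smul]
  congr 1
  ext1 a b
  rw [Matrix.map_apply, Algebra.algebraMap_self, Polynomial.map_id]

theorem aeval_le {v : HeightOneSpectrum (𝓞 K)} {m : ℕ} (c : Fin m → 𝓞 K)
    {q : MvPolynomial (Fin m) K} (hq : ∀ s ∈ q.support, v.valuation K (q.coeff s) ≤ 1) :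
    v.valuation K (MvPolynomial.aeval (fun i => (c i : K)) q) ≤ 1 := by
  rw [MvPolynomial.aeval_def, MvPolynomial.eval₂_eq']
  refine Valuation.map_sum_le _ fun s hs => ?_
  rw [map_mul, map_prod]
  refine mul_le_one' (hq s hs) (Finset.prod_le_one' fun i _ => ?_)
  rw [map_pow]
  exact pow_le_one' (v.valuation_le_one (c i)) _

theorem ev_norm [IsDomain (TensorProduct K (AlgebraicClosure K) A)] (e : Basis (Fin N) K[X] A)
    {m : ℕ} {f : Fin m → A} (hf : LinearIndependent K f) :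
    ∀ᶠ v : HeightOneSpectrum (𝓞 K) in cofinite, ∀ c : Fin m → 𝓞 K, (∃ i, c i ∉ v.asIdeal) →
      ∃ n, ¬ v.valuation K ((Gm e f (fun i => (c i : K))).det.coeff n) < 1 := by
  choose E h hh using fun i => null e hf i
  have h1 : ∀ᶠ v : HeightOneSpectrum (𝓞 K) in cofinite, ∀ i, ∀ k ∈ (h i).support,
      ∀ s ∈ (h i k).support, v.valuation K ((h i k).coeff s) ≤ 1 :=
    eventually_all.2 fun i => (eventually_all_finset _).2 fun k _ =>
      (eventually_all_finset _).2 fun s _ => ev_int _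
  filter_upwards [h1] with v hv c hc
  by_contra hcon
  push Not at hcon
  obtain ⟨i, hi⟩ := hc
  apply hi
  have h2 := congrArg (MvPolynomial.aeval (R := K) (fun i => (c i : K))) (hh i)
  rw [map_pow, MvPolynomial.aeval_X, Finsupp.sum, map_sum] at h2
  have h3 : v.valuation K ((c i : K) ^ E i) < 1 := by
    rw [h2]
    refine Valuation.map_sum_lt _ one_ne_zero fun k hk => ?_
    rw [map_mul, map_mul]
    have h4 := aeval_le c (hv i k hk)
    have h5 := hcon k
    rw [← Gg_map, coeff_map] at h5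
    calc _ ≤ 1 * v.valuation K (MvPolynomial.aeval (fun i => (c i : K)) ((Gg e f).det.coeff k)) :=
          mul_le_mul_left h4 _
      _ < 1 := by rw [one_mul]; exact h5
  rw [map_pow] at h3
  have h6 : v.valuation K (c i : K) < 1 := by
    have h7 : v.valuation K (c i : K) ≤ 1 := v.valuation_le_one (c i)
    rcases h7.lt_or_eq with h8 | h8
    · exact h8
    · exfalso
      rw [h8, one_pow] at h3
      exact absurd h3 (lt_irrefl _)
  exact (v.valuation_lt_one_iff_mem (c i)).1 h6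

/-- elements with coordinates integral at `v` -/
def AR (e : Basis (Fin N) K[X] A) (v : HeightOneSpectrum (𝓞 K))
    (h1 : ∀ i j l, e.repr (e i * e j) l ∈ GR v) (h2 : ∀ l, e.repr 1 l ∈ GR v) : Subring A where
  carrier := {a | ∀ l, e.repr a l ∈ GR v}
  zero_mem' := fun l => by rw [map_zero]; exact zero_mem _
  one_mem' := h2
  add_mem' := fun {a b} ha hb l => by
    rw [map_add]
    exact add_mem (ha l) (hb l)
  neg_mem' := fun {a} ha l => by
    rw [map_neg]
    exact neg_mem (ha l)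
  mul_mem' := fun {a b} ha hb l => by
    have e1 : a * b = ∑ i, ∑ j, (e.repr a i * e.repr b j) • (e i * e j) := by
      conv_lhs => rw [← e.sum_repr a, ← e.sum_repr b, Finset.sum_mul_sum]
      refine Finset.sum_congr rfl fun i _ => Finset.sum_congr rfl fun j _ => ?_
      rw [smul_mul_smul_comm]
    rw [e1, map_sum, Finsupp.finsetSum_apply]
    refine sum_mem fun i _ => ?_
    rw [map_sum, Finsupp.finsetSum_apply]
    refine sum_mem fun j _ => ?_
    rw [map_smul, Finsupp.smul_apply, smul_eq_mul]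
    exact mul_mem (mul_mem (ha i) (hb j)) (h1 i j l)

omit [IsDomain A] [Algebra K A] [IsScalarTower K K[X] A] in
theorem mem_AR {e : Basis (Fin N) K[X] A} {v : HeightOneSpectrum (𝓞 K)}
    {h1 : ∀ i j l, e.repr (e i * e j) l ∈ GR v} {h2 : ∀ l, e.repr 1 l ∈ GR v} {a : A} :
    a ∈ AR e v h1 h2 ↔ ∀ l, e.repr a l ∈ GR v := Iff.rfl

omit [IsDomain A] [Algebra K A] [IsScalarTower K K[X] A] in
theorem smul_mem_AR {e : Basis (Fin N) K[X] A} {v : HeightOneSpectrum (𝓞 K)}
    {h1 : ∀ i j l, e.repr (e i * e j) l ∈ GR v} {h2 : ∀ l, e.repr 1 l ∈ GR v} {a : A} {p : K[X]}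
    (hp : p ∈ GR v) (ha : a ∈ AR e v h1 h2) : p • a ∈ AR e v h1 h2 := fun l => by
  rw [map_smul, Finsupp.smul_apply, smul_eq_mul]
  exact mul_mem hp (ha l)

omit [IsDomain A] [Algebra K A] [IsScalarTower K K[X] A] in
theorem basis_mem_AR {e : Basis (Fin N) K[X] A} {v : HeightOneSpectrum (𝓞 K)}
    {h1 : ∀ i j l, e.repr (e i * e j) l ∈ GR v} {h2 : ∀ l, e.repr 1 l ∈ GR v} (j : Fin N) :
    e j ∈ AR e v h1 h2 := fun l => by
  classical
  rw [Basis.repr_self, Finsupp.single_apply]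
  split_ifs
  · exact one_mem _
  · exact zero_mem _

omit [NumberField K] in
theorem det_adj_mem {T : Type} [CommRing T] (R0 : Subring T) (Mx : Matrix (Fin N) (Fin N) T)
    (h : ∀ i j, Mx i j ∈ R0) : Mx.det ∈ R0 ∧ ∀ i j, Mx.adjugate i j ∈ R0 := by
  obtain ⟨M', hM'⟩ : ∃ M' : Matrix (Fin N) (Fin N) R0, R0.subtype.mapMatrix M' = Mx := by
    refine ⟨Matrix.of fun l j => ⟨Mx l j, h l j⟩, ?_⟩
    ext1 l j
    rw [RingHom.mapMatrix_apply, Matrix.map_apply, Matrix.of_apply]
    rfl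
  refine ⟨?_, fun i j => ?_⟩
  · rw [← hM', ← RingHom.map_det]
    exact M'.det.2
  · rw [← hM', ← RingHom.map_adjugate]
    exact (M'.adjugate i j).2

theorem mulVec_mem {T : Type} [CommRing T] (R0 : Subring T) (Mx : Matrix (Fin N) (Fin N) T)
    (h : ∀ i j, Mx i j ∈ R0) (z : Fin N → T) (hz : ∀ j, z j ∈ R0) (i : Fin N) :
    Matrix.mulVec Mx z i ∈ R0 := by
  rw [Matrix.mulVec, dotProduct]
  exact sum_mem fun j _ => mul_mem (h i j) (hz j)

omit [IsDomain A] [Algebra K A] [IsScalarTower K K[X] A] [NumberField K] in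
theorem adj_mul (e : Basis (Fin N) K[X] A) (s : A) (z : Fin N → K[X])
    (hz : z = Matrix.mulVec (Algebra.leftMulMatrix e s).adjugate (e.repr 1)) :
    s * e.equivFun.symm z = (Algebra.leftMulMatrix e s).det • (1 : A) := by
  apply e.repr.injective
  have h3 : (e.repr (e.equivFun.symm z) : Fin N → K[X]) = z := e.equivFun.apply_symm_apply z
  have h4 := Algebra.leftMulMatrix_mulVec_repr e s (e.equivFun.symm z)
  rw [h3, hz, Matrix.mulVec_mulVec, Matrix.mul_adjugate, Matrix.smul_mulVec,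
    Matrix.one_mulVec, ← hz] at h4
  ext1 l
  rw [← congrFun h4 l, map_smul]
  rfl

omit [IsDomain A] [Algebra K A] [IsScalarTower K K[X] A] in
/-- the adjugate -/
theorem adj {e : Basis (Fin N) K[X] A} {v : HeightOneSpectrum (𝓞 K)}
    {h1 : ∀ i j l, e.repr (e i * e j) l ∈ GR v} {h2 : ∀ l, e.repr 1 l ∈ GR v} {s : A}
    (hs : s ∈ AR e v h1 h2) : (Algebra.leftMulMatrix e s).det ∈ GR v ∧
    ∃ s' ∈ AR e v h1 h2, s * s' = (Algebra.leftMulMatrix e s).det • (1 : A) := by
  have hM : ∀ l j, Algebra.leftMulMatrix e s l j ∈ GR v := by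
    intro l j
    rw [Algebra.leftMulMatrix_eq_repr_mul]
    have h3 : s * e j ∈ AR e v h1 h2 := mul_mem hs (basis_mem_AR j)
    exact mem_AR.1 h3 l
  obtain ⟨hdet, hadj⟩ := det_adj_mem (GR v) (Algebra.leftMulMatrix e s) hM
  refine ⟨hdet, ?_⟩
  obtain ⟨z, hz⟩ : ∃ z : Fin N → K[X],
      z = Matrix.mulVec (Algebra.leftMulMatrix e s).adjugate (e.repr 1) := ⟨_, rfl⟩
  have hzm : ∀ l, z l ∈ GR v := by
    intro l
    rw [hz]
    exact mulVec_mem (GR v) _ hadj _ h2 l
  refine ⟨e.equivFun.symm z, ?_, adj_mul e s z hz⟩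
  rw [mem_AR]
  intro l
  have h3 : e.repr (e.equivFun.symm z) l = z l := congrFun (e.equivFun.apply_symm_apply z) l
  rw [h3]
  exact hzm l

omit [IsDomain A] [Algebra K A] [IsScalarTower K K[X] A] in
/-- division by `s` -/
theorem div_mem {e : Basis (Fin N) K[X] A} {v : HeightOneSpectrum (𝓞 K)}
    {h1 : ∀ i j l, e.repr (e i * e j) l ∈ GR v} {h2 : ∀ l, e.repr 1 l ∈ GR v} {s b : A}
    (hs : s ∈ AR e v h1 h2)
    (hP : ∃ n, ¬ v.valuation K ((Algebra.leftMulMatrix e s).det.coeff n) < 1)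
    (hb : s * b ∈ AR e v h1 h2) : b ∈ AR e v h1 h2 := by
  obtain ⟨hd, s', hs', hss⟩ := adj hs
  have h3 : (Algebra.leftMulMatrix e s).det • b ∈ AR e v h1 h2 := by
    have : (Algebra.leftMulMatrix e s).det • b = s' * (s * b) := by
      rw [← mul_assoc, mul_comm s' s, hss, smul_mul_assoc, one_mul]
    rw [this]
    exact mul_mem hs' hb
  intro l
  have h4 := h3 l
  rw [map_smul, Finsupp.smul_apply, smul_eq_mul] at h4
  exact gauss hd hP h4

end

section

variable {K A L : Type} [Field K] [NumberField K] [CommRing A] [Algebra K A]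
  [Algebra K[X] A] [IsScalarTower K K[X] A] {N : ℕ} [Field L] [NumberField L] [Algebra K L]

theorem psi_poly (ψ : A →ₐ[K] L) {v : HeightOneSpectrum (𝓞 K)} {w : HeightOneSpectrum (𝓞 L)}
    (hw : w.asIdeal.LiesOver v.asIdeal) (hX : w.valuation L (ψ (xA K A)) ≤ 1) {p : K[X]}
    (hp : p ∈ GR v) : w.valuation L (ψ (algebraMap K[X] A p)) ≤ 1 := by
  rw [p.as_sum_range_C_mul_X_pow, map_sum, map_sum]
  refine Valuation.map_sum_le _ fun n _ => ?_
  rw [map_mul, map_mul, map_mul, map_pow, map_pow, map_pow]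
  refine mul_le_one' ?_ (pow_le_one' hX _)
  have h1 : algebraMap K[X] A (C (p.coeff n)) = algebraMap K A (p.coeff n) := by
    rw [IsScalarTower.algebraMap_apply K K[X] A]
    rfl
  rw [h1, AlgHom.commutes]
  exact val_le hw (hp n)

theorem psi_int (ψ : A →ₐ[K] L) {e : Basis (Fin N) K[X] A} {v : HeightOneSpectrum (𝓞 K)}
    {h1 : ∀ i j l, e.repr (e i * e j) l ∈ GR v} {h2 : ∀ l, e.repr 1 l ∈ GR v}
    {w : HeightOneSpectrum (𝓞 L)} (hw : w.asIdeal.LiesOver v.asIdeal)
    (hX : w.valuation L (ψ (xA K A)) ≤ 1) (he : ∀ l, w.valuation L (ψ (e l)) ≤ 1) {a : A}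
    (ha : a ∈ AR e v h1 h2) : w.valuation L (ψ a) ≤ 1 := by
  rw [← e.sum_repr a, map_sum]
  refine Valuation.map_sum_le _ fun l _ => ?_
  rw [Algebra.smul_def, map_mul, map_mul]
  exact mul_le_one' (psi_poly ψ hw hX (ha l)) (he l)

end

/-! ### valuation subrings of number fields -/

section

variable {M : Type} [Field M] [NumberField M]

theorem int_mem (V : ValuationSubring M) (z : 𝓞 M) : (z : M) ∈ V := by
  have h1 : IsIntegral ℤ (z : M) := z.isIntegral_coe
  have h2 : IsIntegral V (z : M) := h1.tower_top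
  obtain ⟨y, hy⟩ := IsIntegrallyClosed.isIntegral_iff.1 h2
  rw [← hy]
  exact y.2

/-- the prime of a valuation subring -/
theorem exists_prime (V : ValuationSubring M) {z : 𝓞 M} (hz : z ≠ 0) (hzV : (z : M) ∈ V.nonunits) :
    ∃ x : HeightOneSpectrum (𝓞 M), (∀ y : 𝓞 M, y ∈ x.asIdeal ↔ (y : M) ∈ V.nonunits) ∧
      (∀ y ∈ V, x.valuation M y ≤ 1) ∧ ∀ y ∈ V.nonunits, x.valuation M y < 1 := by
  let ι : 𝓞 M →+* V := (algebraMap (𝓞 M) M).codRestrict V.toSubring (int_mem V)
  have hmem : ∀ y : 𝓞 M, y ∈ Ideal.comap ι (IsLocalRing.maximalIdeal V) ↔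
      (y : M) ∈ V.nonunits := by
    intro y
    rw [Ideal.mem_comap, ValuationSubring.mem_nonunits_iff_exists_mem_maximalIdeal]
    constructor
    · intro h
      exact ⟨int_mem V y, h⟩
    · rintro ⟨_, h⟩
      exact h
  let x : HeightOneSpectrum (𝓞 M) := ⟨Ideal.comap ι (IsLocalRing.maximalIdeal V),
    Ideal.comap_isPrime _ _, by
      intro h
      have h1 : z ∈ Ideal.comap ι (IsLocalRing.maximalIdeal V) := (hmem z).2 hzV
      rw [h] at h1
      exact hz h1⟩
  have hx : ∀ y : 𝓞 M, y ∈ x.asIdeal ↔ (y : M) ∈ V.nonunits := hmem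
  -- elements outside of the prime are units
  have hd1 : ∀ d : x.asIdeal.primeCompl, V.valuation ((d : 𝓞 M) : M) = 1 := by
    intro d
    have h1 : ((d : 𝓞 M) : M) ∉ V.nonunits := fun h => d.2 ((hx _).2 h)
    rw [ValuationSubring.mem_nonunits_iff, not_lt] at h1
    exact le_antisymm ((V.valuation_le_one_iff _).2 (int_mem V _)) h1
  -- elements with valuation at most one are in `V`
  have hV : ∀ y : M, x.valuation M y ≤ 1 → y ∈ V := by
    intro y hy
    obtain ⟨a, d, had⟩ := x.exists_primeCompl_mul_eq_of_integer y hy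
    have h1 := congrArg V.valuation had
    rw [map_mul] at h1
    have h2 : V.valuation (algebraMap (𝓞 M) M d) = 1 := hd1 d
    rw [h2, mul_one] at h1
    rw [← V.valuation_le_one_iff, h1]
    exact (V.valuation_le_one_iff _).2 (int_mem V a)
  have hle : ∀ y ∈ V, x.valuation M y ≤ 1 := by
    intro y hy
    by_contra hcon
    rw [not_le] at hcon
    have hy0 : y ≠ 0 := by
      rintro rfl
      rw [map_zero] at hcon
      exact absurd hcon (by simp)
    have ht : x.valuation M y⁻¹ < 1 := by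
      rw [map_inv₀]
      exact inv_lt_one_of_one_lt₀ hcon
    obtain ⟨a, d, had⟩ := x.exists_primeCompl_mul_eq_of_integer y⁻¹ ht.le
    have ha : (a : M) ∈ V.nonunits := by
      rw [← hx, ← x.valuation_lt_one_iff_mem (K := M)]
      change x.valuation M (algebraMap (𝓞 M) M a) < 1
      rw [← had, map_mul]
      calc x.valuation M y⁻¹ * x.valuation M (algebraMap (𝓞 M) M d)
          ≤ x.valuation M y⁻¹ * 1 := mul_le_mul_right (x.valuation_le_one _) _
        _ < 1 := by rw [mul_one]; exact ht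
    rw [ValuationSubring.mem_nonunits_iff] at ha
    have h1 := congrArg V.valuation had
    rw [map_mul] at h1
    have h2 : V.valuation (algebraMap (𝓞 M) M d) = 1 := hd1 d
    rw [h2, mul_one] at h1
    have h3 : y⁻¹ ∈ V.nonunits := by
      rw [ValuationSubring.mem_nonunits_iff, h1]
      exact ha
    rcases V.mem_nonunits_iff_or.1 h3 with h4 | h4
    · exact hy0 (inv_eq_zero.1 h4)
    · rw [inv_inv] at h4
      exact h4 hy
  refine ⟨x, hx, hle, ?_⟩
  intro y hy
  rcases V.mem_nonunits_iff_or.1 hy with h4 | h4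
  · rw [h4, map_zero]
    exact zero_lt_one
  · by_contra hcon
    rw [not_lt] at hcon
    apply h4
    apply hV
    rw [map_inv₀]
    exact inv_le_one_of_one_le₀ hcon

end

/-! ### the theorem -/

section

variable {K A L M : Type} [Field K] [NumberField K] [CommRing A] [Algebra K A]
  [Algebra K[X] A] [IsScalarTower K K[X] A] {N : ℕ} [Field L] [NumberField L] [Algebra K L]
  [Field M] [NumberField M] [Algebra K M]

theorem link {e : Basis (Fin N) K[X] A} {v : HeightOneSpectrum (𝓞 K)}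
    (h1 : ∀ i j l, e.repr (e i * e j) l ∈ GR v) (h2 : ∀ l, e.repr 1 l ∈ GR v) (ψ : A →ₐ[K] L)
    (φ : A →ₐ[K] M) {w : HeightOneSpectrum (𝓞 L)} (hw : w.asIdeal.LiesOver v.asIdeal)
    (hX : w.valuation L (ψ (xA K A)) ≤ 1) (he : ∀ l, w.valuation L (ψ (e l)) ≤ 1) {s : A}
    (hs : s ∈ AR e v h1 h2)
    (hP : ∃ n, ¬ v.valuation K ((Algebra.leftMulMatrix e s).det.coeff n) < 1)
    (hws : w.valuation L (ψ s) < 1) (hker : RingHom.ker φ = Ideal.span {s}) :
    ∃ x : HeightOneSpectrum (𝓞 M), x.asIdeal.LiesOver v.asIdeal ∧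
      x.valuation M (φ (xA K A)) ≤ 1 ∧ ∀ a ∈ AR e v h1 h2, ψ a = 0 → x.valuation M (φ a) < 1 := by
  -- elements of the kernel
  have hK : ∀ a ∈ AR e v h1 h2, φ a = 0 → w.valuation L (ψ a) < 1 := by
    intro a ha h0
    have h3 : a ∈ RingHom.ker φ := (RingHom.mem_ker).2 h0
    rw [hker, Ideal.mem_span_singleton'] at h3
    obtain ⟨b, rfl⟩ := h3
    have h4 : b ∈ AR e v h1 h2 := div_mem hs hP (by rwa [mul_comm])
    have h5 := psi_int ψ hw hX he h4
    rw [map_mul, map_mul]
    calc w.valuation L (ψ b) * w.valuation L (ψ s) ≤ 1 * w.valuation L (ψ s) :=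
          mul_le_mul_left h5 _
      _ < 1 := by rw [one_mul]; exact hws
  -- the subring and the ideal
  let Bs : Subring M := (AR e v h1 h2).map (φ : A →+* M)
  let n : Ideal Bs :=
    { carrier := {b | ∃ a ∈ AR e v h1 h2, φ a = b ∧ w.valuation L (ψ a) < 1}
      zero_mem' := ⟨0, zero_mem _, by simp, by simp⟩
      add_mem' := by
        rintro b b' ⟨a, ha, hab, hw1⟩ ⟨a', ha', hab', hw1'⟩
        refine ⟨a + a', add_mem ha ha', ?_, ?_⟩
        · rw [map_add, hab, hab']
          rfl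
        · rw [map_add]
          exact Valuation.map_add_lt _ hw1 hw1'
      smul_mem' := by
        rintro b b' ⟨a', ha', hab', hw1'⟩
        obtain ⟨a, ha, hab⟩ := Subring.mem_map.1 b.2
        refine ⟨a * a', mul_mem ha ha', ?_, ?_⟩
        · rw [map_mul, hab']
          have hab2 : φ a = (b : M) := hab
          rw [hab2]
          rfl
        · rw [map_mul, map_mul]
          calc w.valuation L (ψ a) * w.valuation L (ψ a') ≤ 1 * w.valuation L (ψ a') :=
                mul_le_mul_left (psi_int ψ hw hX he ha) _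
            _ < 1 := by rw [one_mul]; exact hw1' }
  have hn : n ≠ ⊤ := by
    rw [Ideal.ne_top_iff_one]
    rintro ⟨a, ha, hab, hw1⟩
    have hab2 : φ a = 1 := hab
    have h3 : w.valuation L (ψ (1 - a)) < 1 := by
      refine hK _ (sub_mem (one_mem _) ha) ?_
      rw [map_sub, hab2, map_one, sub_self]
    have h4 : w.valuation L (ψ (1 - a) + ψ a) < 1 := Valuation.map_add_lt _ h3 hw1
    rw [← map_add, sub_add_cancel, map_one, map_one] at h4
    exact absurd h4 (lt_irrefl _)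
  obtain ⟨V, hV1, hV2⟩ := Ideal.image_subset_nonunits_valuationSubring n hn
  have hVB : ∀ a ∈ AR e v h1 h2, φ a ∈ V := fun a ha => hV1 (Subring.mem_map.2 ⟨a, ha, rfl⟩)
  have hVn : ∀ a ∈ AR e v h1 h2, w.valuation L (ψ a) < 1 → φ a ∈ V.nonunits := by
    intro a ha hwa
    exact hV2 ⟨⟨φ a, Subring.mem_map.2 ⟨a, ha, rfl⟩⟩, ⟨a, ha, rfl, hwa⟩, rfl⟩
  -- constants
  have hconst : ∀ c : 𝓞 K, algebraMap K A (c : K) ∈ AR e v h1 h2 := by
    intro c
    have h3 : algebraMap K A (c : K) = (C (c : K) : K[X]) • (1 : A) := by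
      rw [Algebra.smul_def, mul_one, IsScalarTower.algebraMap_apply K K[X] A]
      rfl
    rw [h3]
    refine smul_mem_AR (fun n => ?_) (one_mem _)
    rw [coeff_C]
    split_ifs
    · exact v.valuation_le_one c
    · simp
  have hv : ∀ c ∈ v.asIdeal, algebraMap K M (c : K) ∈ V.nonunits := by
    intro c hc
    rw [← φ.commutes]
    refine hVn _ (hconst c) ?_
    rw [ψ.commutes, ← HeightOneSpectrum.valuation_liesOver L v w (c : K)]
    have h3 : v.valuation K (c : K) < 1 := (v.valuation_lt_one_iff_mem c).2 hc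
    exact pow_lt_one' h3 (Ideal.IsDedekindDomain.ramificationIdx'_ne_zero_of_liesOver w.asIdeal
      v.ne_bot)
  obtain ⟨c0, hc0, hc0'⟩ := v.asIdeal.ne_bot_iff.1 v.ne_bot
  have hcoe : ∀ c : 𝓞 K, ((algebraMap (𝓞 K) (𝓞 M) c : 𝓞 M) : M) = algebraMap K M (c : K) :=
    fun c => rfl
  have hz0 : algebraMap (𝓞 K) (𝓞 M) c0 ≠ 0 := by
    intro h
    apply hc0'
    have h3 := congrArg (fun t : 𝓞 M => (t : M)) h
    simp only [hcoe] at h3
    have h4 : (c0 : K) = 0 := by
      apply (algebraMap K M).injective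
      rw [h3, map_zero]
      rfl
    exact_mod_cast h4
  obtain ⟨x, hx, hx1, hx2⟩ := exists_prime V hz0 (by rw [hcoe]; exact hv c0 hc0)
  refine ⟨x, ?_, ?_, ?_⟩
  · constructor
    refine v.isMaximal.eq_of_le ?_ ?_
    · exact Ideal.IsPrime.ne_top (Ideal.comap_isPrime _ _)
    · intro c hc
      rw [Ideal.mem_comap, hx, hcoe]
      exact hv c hc
  · refine hx1 _ (hVB _ ?_)
    have h3 : xA K A = (X : K[X]) • (1 : A) := by
      rw [Algebra.smul_def, mul_one, xA]
    rw [h3]
    refine smul_mem_AR (fun n => ?_) (one_mem _)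
    rw [coeff_X]
    split_ifs <;> simp
  · intro a ha h0
    refine hx2 _ (hVn a ha ?_)
    rw [h0, map_zero]
    exact zero_lt_one

end

theorem t : StmLinkC := by
  intro K A L _ _ _ _ _ _ _ _ _ _ _ _ hdom m u f hf ψ g hg
  haveI := hdom
  haveI : Module.Free K[X] A := inferInstance
  obtain ⟨N, e⟩ : Σ N, Basis (Fin N) K[X] A := ⟨_, Module.finBasis K[X] A⟩
  have E1 : ∀ᶠ v : HeightOneSpectrum (𝓞 K) in cofinite, ∀ i j l,
      e.repr (e i * e j) l ∈ GR v :=
    eventually_all.2 fun i => eventually_all.2 fun j => eventually_all.2 fun l => ev_poly _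
  have E2 : ∀ᶠ v : HeightOneSpectrum (𝓞 K) in cofinite, ∀ l, e.repr 1 l ∈ GR v :=
    eventually_all.2 fun l => ev_poly _
  have E3 : ∀ᶠ v : HeightOneSpectrum (𝓞 K) in cofinite, ∀ i l, e.repr (f i) l ∈ GR v :=
    eventually_all.2 fun i => eventually_all.2 fun l => ev_poly _
  have E4 : ∀ᶠ v : HeightOneSpectrum (𝓞 K) in cofinite, ∀ i l, e.repr (g i) l ∈ GR v :=
    eventually_all.2 fun i => eventually_all.2 fun l => ev_poly _
  have E5 : ∀ᶠ v : HeightOneSpectrum (𝓞 K) in cofinite, ∀ w : HeightOneSpectrum (𝓞 L),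
      w.asIdeal.LiesOver v.asIdeal → w.valuation L (ψ (xA K A)) ≤ 1 := ev_over _
  have E6 : ∀ᶠ v : HeightOneSpectrum (𝓞 K) in cofinite, ∀ l, ∀ w : HeightOneSpectrum (𝓞 L),
      w.asIdeal.LiesOver v.asIdeal → w.valuation L (ψ (e l)) ≤ 1 :=
    eventually_all.2 fun l => ev_over _
  have E7 := ev_norm e hf
  have E := ((((((E1.and E2).and E3).and E4).and E5).and E6).and E7)
  rw [eventually_cofinite] at E
  refine ⟨E.toFinset, ?_⟩
  intro M _ _ _ φ c _ hker v hv hc w hw hwc
  have hv' := not_not.1 (fun h => hv (E.mem_toFinset.2 h))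
  obtain ⟨⟨⟨⟨⟨⟨h1, h2⟩, h3⟩, h4⟩, h5⟩, h6⟩, h7⟩ := hv'
  have hs : mem f (fun i => (c i : K)) ∈ AR e v h1 h2 := by
    rw [mem]
    refine sum_mem fun i _ => ?_
    have h8 : (c i : K) • f i = (C (c i : K) : K[X]) • f i := by
      rw [← smul_one_smul K[X] (c i : K) (f i)]
      congr 1
      rw [← C_mul', mul_one]
    rw [h8]
    refine smul_mem_AR (fun n => ?_) (h3 i)
    rw [coeff_C]
    split_ifs
    · exact v.valuation_le_one (c i)
    · simp
  have hP := h7 c hc
  rw [Gm_eq] at hP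
  obtain ⟨x, hx1, hx2, hx3⟩ := link h1 h2 ψ φ hw (h5 w hw) (fun l => h6 l w hw) hs hP hwc hker
  exact ⟨x, hx1, hx2, fun i => hx3 _ (h4 i) (hg i)⟩

end Pool.Agent.N488.CV
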